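import Pool.Agent.H516.PCF.All

/-!
# PCF ARCH: the archimedean lower bound
-/

set_option autoImplicit false

open Polynomial

namespace Pool.Agent.H784.PCF

open Pool.Agent.H516.PCF

/-- AM-GM with natural powers -/
theorem amgm (s : Finset ℂ) (z : ℂ → ℝ) (hs : s.Nonempty) (hz : ∀ i ∈ s, 0 ≤ z i) {c : ℝ} (hc : ∑ i ∈ s, z i ≤ c) :
    ∏ i ∈ s, z i ≤ (c / s.card) ^ s.card := by
  have hN : (0 : ℝ) < s.card := by exact_mod_cast hs.card_pos
  have h1 := Real.geom_mean_le_arith_mean s (fun _ => (1 : ℝ)) z (fun _ _ => zero_le_one) (by simpa using hs.card_pos) hz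
  simp only [Real.rpow_one, Finset.sum_const, nsmul_eq_mul, mul_one, one_mul] at h1
  have hp : 0 ≤ ∏ i ∈ s, z i := Finset.prod_nonneg hz
  have h2 : (∏ i ∈ s, z i) = ((∏ i ∈ s, z i) ^ ((s.card : ℝ)⁻¹)) ^ s.card := by
    rw [← Real.rpow_natCast, ← Real.rpow_mul hp, inv_mul_cancel₀ hN.ne', Real.rpow_one]
  rw [h2]
  refine pow_le_pow_left₀ (by positivity) (h1.trans ?_) _
  exact div_le_div_of_nonneg_right hc hN.le

theorem arch (hAREA : S_AREA) (hMAH : S_MAH) (hFIB : S_FIB) (hRF : S_RF) (hCMP : S_CMP) : S_ARCH := by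
  intro d P Q A hNrm hPost t₀ ht₀
  have hd2 : 2 ≤ d := hNrm.two_le
  have hd0 : (0 : ℝ) < d := by exact_mod_cast (by omega : 0 < d)
  -- the distance to `A`
  obtain ⟨r, hr, hrA⟩ : ∃ r : ℝ, 0 < r ∧ ∀ x ∈ A, r ≤ ‖x - t₀‖ := by
    have hopen : IsOpen (Aᶜ) := hPost.fin.isClosed.isOpen_compl
    obtain ⟨r, hr, hball⟩ := Metric.isOpen_iff.mp hopen t₀ ht₀
    refine ⟨r, hr, fun x hx => ?_⟩
    by_contra hlt
    push Not at hlt
    exact hball (by rwa [Metric.mem_ball, dist_eq_norm]) hx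
  obtain ⟨C₀, hC₀, hA⟩ := hAREA
  obtain ⟨C₂, hC₂, hM⟩ := hMAH d P Q hNrm t₀ r
  set C₁ : ℝ := C₀ / r ^ 2 with hC₁
  have hC₁0 : 0 < C₁ := by positivity
  set K : ℝ := 16 * C₁ * C₂ ^ 4 with hK
  have hC₂0 : 0 < C₂ := by linarith
  have hK0 : 0 < K := by positivity
  refine ⟨Real.log K / 2, fun n => ?_⟩
  set N : ℕ := d ^ n with hN
  have hN0 : 0 < N := pow_pos (by omega) n
  have hNr : (0 : ℝ) < N := by exact_mod_cast hN0
  -- the Wronskian is not zero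
  have hwr : wr (pn d P Q n) (qn d P Q n) ≠ 0 := by
    obtain ⟨h1, -, h3⟩ := hFIB ℂ d P Q hNrm n t₀
    obtain ⟨x, hx⟩ := Multiset.card_pos_iff_exists_mem.mp (by rw [h1]; exact hN0)
    intro h0
    have := ((h3 A hPost ht₀).2 x hx).2
    rw [h0] at this
    simp at this
  obtain ⟨t, ht1, ht2, hsum⟩ := hA (pn d P Q n) (qn d P Q n) hwr A hPost.fin t₀ r hr
  obtain ⟨hcard, hmem, hfib⟩ := hFIB ℂ d P Q hNrm n t
  obtain ⟨hnd, hW⟩ := hfib A hPost ht2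
  set s : Finset ℂ := ⟨fib d P Q n t, hnd⟩ with hs
  have hscard : s.card = N := by rw [hs, Finset.card_mk, hcard]
  have hms : ∀ x ∈ s, x ∈ fib d P Q n t := fun x hx => hx
  have hsne : s.Nonempty := Finset.card_pos.mp (by rw [hscard]; exact hN0)
  have hq : ∀ x ∈ s, (qn d P Q n).eval x ≠ 0 := fun x hx => ((hmem x).mp (hms x hx)).1
  have hdn : ∀ x ∈ s, 0 < ‖dn d P Q n x‖ := fun x hx =>
    norm_pos_iff.mpr (div_ne_zero (hW x (hms x hx)).2 (pow_ne_zero 2 (hq x hx)))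
  have hsum' : ∑ x ∈ s, ((1 + ‖x‖) ^ 4 * ‖dn d P Q n x‖ ^ 2)⁻¹ ≤ C₁ :=
    hsum s fun x hx => ⟨hq x hx, ((hmem x).mp (hms x hx)).2, (hW x (hms x hx)).2⟩
  have hag := amgm s (fun x => ((1 + ‖x‖) ^ 4 * ‖dn d P Q n x‖ ^ 2)⁻¹) hsne (fun x _ => by positivity) hsum'
  rw [hscard, Finset.prod_inv_distrib, Finset.prod_mul_distrib, Finset.prod_pow, Finset.prod_pow] at hag
  -- the products
  have hE : ∏ x ∈ s, ‖dn d P Q n x‖ = ‖en d P Q n t‖ := by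
    rw [← hRF ℂ d P Q hNrm n t, ← norm_prod]
    rfl
  have hE0 : 0 < ‖en d P Q n t‖ := by
    rw [← hE]
    exact Finset.prod_pos hdn
  have hMM : ∏ x ∈ s, (1 + ‖x‖) ≤ C₂ ^ N := hM n t ht1
  have hMM0 : 0 < ∏ x ∈ s, (1 + ‖x‖) := Finset.prod_pos fun x _ => by positivity
  rw [hE] at hag
  set Mx : ℝ := ∏ x ∈ s, (1 + ‖x‖) with hMx
  have h1 : (N / C₁) ^ N ≤ Mx ^ 4 * ‖en d P Q n t‖ ^ 2 := by
    have h2 : 0 < Mx ^ 4 * ‖en d P Q n t‖ ^ 2 := by positivity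
    have h3 := inv_anti₀ (inv_pos.mpr h2) hag
    rw [inv_inv, ← inv_pow, inv_div] at h3
    exact h3
  have h2 : (N / C₁) ^ N ≤ (C₂ ^ N) ^ 4 * ‖en d P Q n t‖ ^ 2 := h1.trans (by gcongr)
  -- comparison of the parameters
  have h3 : ‖en d P Q n t‖ ≤ ‖en d P Q n t₀‖ * 2 ^ (2 * N) := by
    have := hCMP ℂ d P Q A hNrm hPost (normHom : ℂ →*₀ ℝ) (fun x => norm_nonneg x) 2 (by norm_num) t t₀ (by
      intro x hx
      show ‖x - t‖ ≤ 2 * ‖x - t₀‖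
      have h4 := hrA x hx
      have h5 : ‖x - t‖ ≤ ‖x - t₀‖ + ‖t - t₀‖ := by
        have : x - t = (x - t₀) - (t - t₀) := by ring
        rw [this]
        exact norm_sub_le _ _
      linarith) n
    exact this
  have h4 : (N / K) ^ N ≤ ‖en d P Q n t₀‖ ^ 2 := by
    have h5 : ‖en d P Q n t‖ ^ 2 ≤ ‖en d P Q n t₀‖ ^ 2 * 16 ^ N := by
      calc ‖en d P Q n t‖ ^ 2 ≤ (‖en d P Q n t₀‖ * 2 ^ (2 * N)) ^ 2 := by gcongr
        _ = ‖en d P Q n t₀‖ ^ 2 * 16 ^ N := by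
          rw [mul_pow]
          congr 1
          rw [← pow_mul, show 2 * N * 2 = 4 * N by ring, pow_mul]
          norm_num
    have h6 : (N / C₁) ^ N ≤ (16 * C₂ ^ 4) ^ N * ‖en d P Q n t₀‖ ^ 2 := by
      calc (N / C₁) ^ N ≤ (C₂ ^ N) ^ 4 * ‖en d P Q n t‖ ^ 2 := h2
        _ ≤ (C₂ ^ N) ^ 4 * (‖en d P Q n t₀‖ ^ 2 * 16 ^ N) := by gcongr
        _ = (16 * C₂ ^ 4) ^ N * ‖en d P Q n t₀‖ ^ 2 := by
          rw [mul_pow, ← pow_mul, ← pow_mul, mul_comm N 4]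
          ring
    have h7 : (N / K : ℝ) = (N / C₁) / (16 * C₂ ^ 4) := by
      rw [hK]
      field_simp
    rw [h7, div_pow, div_le_iff₀ (by positivity)]
    linarith [h6]
  have h8 : Real.exp ((d : ℝ) ^ n * (n / 2 * Real.log d - Real.log K / 2)) ^ 2 = (N / K) ^ N := by
    have h9 : (N : ℝ) = (d : ℝ) ^ n := by rw [hN]; push_cast; rfl
    have h10 : Real.log (N / K) = n * Real.log d - Real.log K := by
      rw [Real.log_div hNr.ne' hK0.ne', h9, Real.log_pow]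
    have h11 : (N / K : ℝ) ^ N = Real.exp (N * Real.log (N / K)) := by
      rw [Real.exp_nat_mul, Real.exp_log (by positivity)]
    rw [h11, h10, ← Real.exp_nat_mul, h9]
    congr 1
    push_cast
    ring
  rw [← pow_le_pow_iff_left₀ (Real.exp_pos _).le (norm_nonneg _) two_ne_zero, h8]
  exact h4

end Pool.Agent.H784.PCF
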