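import Pool.Agent.H516.PCF.All

/-!
# PCF AREA: the area inequality
-/

set_option autoImplicit false

open Polynomial MeasureTheory Filter Topology Set
open scoped ENNReal

namespace Pool.Agent.H784.PCF

open Pool.Agent.H516.PCF

/-- the real determinant of the multiplication by a complex number -/
theorem det_smul_one (c : ℂ) : (c • (1 : ℂ →L[ℝ] ℂ)).det = ‖c‖ ^ 2 := by
  have h1 : (c • (1 : ℂ →L[ℝ] ℂ)).det = LinearMap.det (LinearMap.mulLeft ℝ c) := by
    rw [ContinuousLinearMap.det]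
    congr 1
  have h2 : LinearMap.det (LinearMap.mulLeft ℝ c) = Algebra.norm ℝ c := rfl
  rw [h1, h2, Algebra.norm_complex_eq]
  simp [Complex.normSq_eq_norm_sq]

section

variable (U V : ℂ[X])

/-- the rational function -/
noncomputable def FF (x : ℂ) : ℂ := U.eval x / V.eval x

/-- its derivative -/
noncomputable def DF (x : ℂ) : ℂ := (wr U V).eval x / V.eval x ^ 2

/-- the domain -/
def WW : Set ℂ := {x | V.eval x ≠ 0 ∧ (wr U V).eval x ≠ 0}

theorem isOpen_WW : IsOpen (WW U V) :=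
  (isOpen_ne_fun V.continuous continuous_const).inter (isOpen_ne_fun (wr U V).continuous continuous_const)

theorem DF_ne {x : ℂ} (hx : x ∈ WW U V) : DF U V x ≠ 0 := div_ne_zero hx.2 (pow_ne_zero 2 hx.1)

theorem strict {x : ℂ} (hx : x ∈ WW U V) : HasStrictDerivAt (FF U V) (DF U V x) x := by
  have h1 := (U.hasStrictDerivAt x).fun_div (V.hasStrictDerivAt x) hx.1
  have e : DF U V x = (eval x (derivative U) * eval x V - eval x U * eval x (derivative V)) / eval x V ^ 2 := by
    unfold DF wr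
    simp
  rw [e]
  exact h1

/-- locally injective -/
theorem loc_inj (x : ℂ) : ∃ O : Set ℂ, IsOpen O ∧ InjOn (FF U V) O ∧ (x ∈ WW U V → x ∈ O) := by
  by_cases hx : x ∈ WW U V
  · have h1 := (strict U V hx).hasStrictFDerivAt_equiv (DF_ne U V hx)
    refine ⟨(h1.toOpenPartialHomeomorph (FF U V)).source, (h1.toOpenPartialHomeomorph (FF U V)).open_source, ?_,
      fun _ => h1.mem_toOpenPartialHomeomorph_source⟩
    exact (h1.toOpenPartialHomeomorph (FF U V)).injOn
  · exact ⟨∅, isOpen_empty, injOn_empty _, fun h => absurd h hx⟩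

/-- `W` is a countable disjoint union of measurable sets on which `F` is injective -/
theorem pieces : ∃ W : ℕ → Set ℂ, (∀ i, MeasurableSet (W i)) ∧ (∀ i, InjOn (FF U V) (W i)) ∧
    Pairwise (Function.onFun Disjoint W) ∧ ⋃ i, W i = WW U V := by
  choose O hO hi hx using loc_inj U V
  obtain ⟨t, -, htc, hcov⟩ := TopologicalSpace.countable_cover_nhdsWithin (s := WW U V) (f := O)
    fun x hx' => mem_nhdsWithin_of_mem_nhds ((hO x).mem_nhds (hx x hx'))
  obtain ⟨f, hf⟩ := countable_iff_exists_subset_range.mp htc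
  refine ⟨fun i => WW U V ∩ disjointed (fun n => O (f n)) i, fun i => ?_, fun i => ?_, ?_, ?_⟩
  · exact (isOpen_WW U V).measurableSet.inter (MeasurableSet.disjointed (fun n => (hO (f n)).measurableSet) i)
  · exact (hi (f i)).mono (inter_subset_right.trans (disjointed_subset _ i))
  · intro i j hij
    exact (disjoint_disjointed (fun n => O (f n)) hij).mono inter_subset_right inter_subset_right
  · rw [← inter_iUnion, iUnion_disjointed]
    refine inter_eq_left.mpr fun x hxW => ?_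
    obtain ⟨y, hy, hxy⟩ := mem_iUnion₂.mp (hcov hxW)
    obtain ⟨n, rfl⟩ := hf hy
    exact mem_iUnion.mpr ⟨n, hxy⟩

/-- the summand -/
noncomputable def gg (x : ℂ) : ℝ≥0∞ := ENNReal.ofReal (((1 + ‖x‖) ^ 4 * ‖DF U V x‖ ^ 2)⁻¹)

theorem measurable_gg : Measurable (gg U V) := by
  unfold gg DF
  have h1 : Measurable fun x : ℂ => (wr U V).eval x := (wr U V).continuous.measurable
  have h2 : Measurable fun x : ℂ => V.eval x := V.continuous.measurable
  fun_prop

/-- the function on the image of a piece -/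
noncomputable def GG (s : Set ℂ) : ℂ → ℝ≥0∞ :=
  Function.extend (s.domRestrict (FF U V)) (fun x : s => gg U V x) 0

variable {U V}

theorem deriv_piece {s : Set ℂ} (hW : s ⊆ WW U V) :
    ∀ x ∈ s, HasFDerivWithinAt (FF U V) (DF U V x • (1 : ℂ →L[ℝ] ℂ)) s x := fun _ hx =>
  ((strict U V (hW hx)).hasDerivAt.complexToReal_fderiv).hasFDerivWithinAt

theorem GG_apply {s : Set ℂ} (hi : InjOn (FF U V) s) {x : ℂ} (hx : x ∈ s) : GG U V s (FF U V x) = gg U V x := by
  have h1 : Function.Injective (s.domRestrict (FF U V)) := injOn_iff_injective.1 hi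
  exact h1.extend_apply (fun x : s => gg U V x) 0 ⟨x, hx⟩

theorem GG_zero {s : Set ℂ} {t : ℂ} (ht : t ∉ FF U V '' s) : GG U V s t = 0 := by
  unfold GG
  rw [Function.extend_apply']
  · rfl
  · rintro ⟨⟨x, hx⟩, hxt⟩
    exact ht ⟨x, hx, hxt⟩

theorem GG_meas {s : Set ℂ} (hs : MeasurableSet s) (hW : s ⊆ WW U V) (hi : InjOn (FF U V) s) :
    Measurable (GG U V s) :=
  (measurableEmbedding_of_fderivWithin hs (deriv_piece hW) hi).measurable_extend
    ((measurable_gg U V).comp measurable_subtype_coe) measurable_zero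

theorem lintegral_GG {s : Set ℂ} (hs : MeasurableSet s) (hW : s ⊆ WW U V) (hi : InjOn (FF U V) s) :
    ∫⁻ t, GG U V s t = ∫⁻ x in s, ENNReal.ofReal (((1 + ‖x‖) ^ 4)⁻¹) := by
  have himg : MeasurableSet (FF U V '' s) := by
    have := (measurableEmbedding_of_fderivWithin hs (deriv_piece hW) hi).measurableSet_range
    rwa [range_domRestrict] at this
  have h1 : ∫⁻ t, GG U V s t = ∫⁻ t in FF U V '' s, GG U V s t := by
    rw [← lintegral_indicator himg]
    congr 1
    ext t
    by_cases ht : t ∈ FF U V '' s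
    · rw [indicator_of_mem ht]
    · rw [indicator_of_notMem ht, GG_zero ht]
  rw [h1, lintegral_image_eq_lintegral_abs_det_fderiv_mul volume hs (deriv_piece hW) hi]
  refine setLIntegral_congr_fun hs fun x hx => ?_
  show ENNReal.ofReal |(DF U V x • (1 : ℂ →L[ℝ] ℂ)).det| * GG U V s (FF U V x) = _
  have hD : 0 < ‖DF U V x‖ := norm_pos_iff.mpr (DF_ne U V (hW hx))
  have hx1 : 0 < 1 + ‖x‖ := by positivity
  rw [GG_apply hi hx, det_smul_one, abs_of_nonneg (by positivity), gg, ← ENNReal.ofReal_mul (by positivity)]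
  congr 1
  field_simp

end

theorem area : S_AREA := by
  set I : ℝ≥0∞ := ∫⁻ x : ℂ, ENNReal.ofReal (((1 + ‖x‖) ^ 4)⁻¹) with hI
  have hIfin : I < ∞ := by
    have h1 : (Module.finrank ℝ ℂ : ℝ) < 4 := by
      rw [Complex.finrank_real_complex]; norm_num
    have h2 := finite_integral_one_add_norm (E := ℂ) (μ := volume) h1
    have h3 : ∀ x : ℂ, ((1 + ‖x‖) ^ 4)⁻¹ = (1 + ‖x‖) ^ (-4 : ℝ) := by
      intro x
      have hx1 : 0 ≤ 1 + ‖x‖ := by positivity
      rw [Real.rpow_neg hx1]
      norm_cast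
    rw [hI]
    simp only [h3]
    exact h2
  refine ⟨I.toReal / Real.pi + 1, by positivity, ?_⟩
  intro U V hUV T hT t₀ r hr
  by_contra hno
  push Not at hno
  set C₀ : ℝ := I.toReal / Real.pi + 1 with hC₀
  obtain ⟨W, hWm, hWi, hWd, hWU⟩ := pieces U V
  have hWW : ∀ i, W i ⊆ WW U V := fun i => hWU ▸ subset_iUnion W i
  -- the sum of the integrals
  have hsum : ∫⁻ t, ∑' i, GG U V (W i) t ≤ I := by
    rw [lintegral_tsum fun i => (GG_meas (hWm i) (hWW i) (hWi i)).aemeasurable]
    calc ∑' i, ∫⁻ t, GG U V (W i) t = ∑' i, ∫⁻ x in W i, ENNReal.ofReal (((1 + ‖x‖) ^ 4)⁻¹) :=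
          tsum_congr fun i => lintegral_GG (hWm i) (hWW i) (hWi i)
      _ = ∫⁻ x in ⋃ i, W i, ENNReal.ofReal (((1 + ‖x‖) ^ 4)⁻¹) := (lintegral_iUnion hWm hWd _).symm
      _ ≤ I := setLIntegral_le_lintegral _ _
  -- the lower bound
  have hlow : ∀ t ∈ Metric.ball t₀ r \ T, ENNReal.ofReal (C₀ / r ^ 2) ≤ ∑' i, GG U V (W i) t := by
    rintro t ⟨ht1, ht2⟩
    obtain ⟨s, hs, hlt⟩ := hno t (by rwa [Metric.mem_ball, dist_eq_norm] at ht1) ht2
    have hsW : ∀ x ∈ s, x ∈ ⋃ i, W i := fun x hx => by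
      rw [hWU]
      exact ⟨(hs x hx).1, (hs x hx).2.2⟩
    choose! ι hι using fun x hx => mem_iUnion.mp (hsW x hx)
    have hinj : InjOn ι s := by
      intro x hx y hy hxy
      have h1 := hι x hx
      have h2 := hι y hy
      rw [hxy] at h1
      exact hWi (ι y) h1 h2 (((hs x hx).2.1).trans ((hs y hy).2.1).symm)
    calc ENNReal.ofReal (C₀ / r ^ 2) ≤ ENNReal.ofReal
          (∑ x ∈ s, ((1 + ‖x‖) ^ 4 * ‖(wr U V).eval x / V.eval x ^ 2‖ ^ 2)⁻¹) := ENNReal.ofReal_le_ofReal hlt.le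
      _ = ∑ x ∈ s, gg U V x := ENNReal.ofReal_sum_of_nonneg fun x _ => by positivity
      _ = ∑ x ∈ s, GG U V (W (ι x)) t := by
        refine Finset.sum_congr rfl fun x hx => ?_
        have h1 : FF U V x = t := (hs x hx).2.1
        rw [← GG_apply (hWi (ι x)) (hι x hx), h1]
      _ = ∑ i ∈ s.image ι, GG U V (W i) t := (Finset.sum_image (f := fun i => GG U V (W i) t) fun x hx y hy h => hinj hx hy h).symm
      _ ≤ _ := ENNReal.sum_le_tsum _
  have hvol : ENNReal.ofReal (C₀ / r ^ 2) * volume (Metric.ball t₀ r) ≤ I := by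
    have h1 : volume (Metric.ball t₀ r \ T) = volume (Metric.ball t₀ r) := measure_sdiff_null (hT.measure_zero _)
    rw [← h1, ← setLIntegral_const]
    calc _ ≤ ∫⁻ t in Metric.ball t₀ r \ T, ∑' i, GG U V (W i) t :=
          setLIntegral_mono' (Metric.isOpen_ball.measurableSet.diff hT.measurableSet) hlow
      _ ≤ ∫⁻ t, ∑' i, GG U V (W i) t := setLIntegral_le_lintegral _ _
      _ ≤ I := hsum
  rw [Complex.volume_ball] at hvol
  have h4 : ENNReal.ofReal (C₀ / r ^ 2) * (ENNReal.ofReal r ^ 2 * NNReal.pi) = ENNReal.ofReal (I.toReal + Real.pi) := by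
    have h5 : (NNReal.pi : ℝ≥0∞) = ENNReal.ofReal Real.pi := by
      rw [← NNReal.coe_real_pi, ENNReal.ofReal_coe_nnreal]
    rw [h5, ← ENNReal.ofReal_pow hr.le, ← ENNReal.ofReal_mul (by positivity), ← ENNReal.ofReal_mul (by positivity)]
    congr 1
    rw [hC₀]
    have := Real.pi_pos
    field_simp
  rw [h4] at hvol
  have h6 : I = ENNReal.ofReal I.toReal := (ENNReal.ofReal_toReal hIfin.ne).symm
  rw [h6] at hvol
  have h7 := (ENNReal.ofReal_le_ofReal_iff ENNReal.toReal_nonneg).mp hvol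
  rw [ENNReal.toReal_ofReal ENNReal.toReal_nonneg] at h7
  have := Real.pi_pos
  linarith

end Pool.Agent.H784.PCF
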